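import Pool.Agent.H206R2.Tower.Six

/-!
With `ℓ = log π`: either `π ^ π` is transcendental, or at least three of the four numbers
`ℓ`, `1/ℓ`, `ℓ² π`, `π/ℓ` and at least two of the three numbers `ℓ π²`, `(ℓ π)²`, `1/(ℓ π)` are not
linear combinations of logarithms of algebraic numbers with algebraic coefficients.
-/

set_option autoImplicit false

namespace Pool.Agent.Results.MP_4c2ad3_nt.PiPiOrFiveOfSeven

open Real Pool.Agent.H301R2.SSE Pool.Agent.H301R2.Nine Pool.Agent.H206R2.Tower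

/-- `lp = log π` -/
noncomputable def lp : ℝ := Real.log π

/-- `x` is log-free: every number `exp (γ x) · α₁ ^ β₁ ⋯ αₙ ^ βₙ` is transcendental, where
`γ ≠ 0` and the `βⱼ` are algebraic and `αⱼ ^ βⱼ = exp (βⱼ ℓⱼ)` with `exp ℓⱼ = αⱼ` algebraic. -/
def LogFree (x : ℂ) : Prop :=
  ∀ γ : ℂ, IsAlgebraic ℚ γ → γ ≠ 0 → ∀ (n : ℕ) (β ℓ : Fin n → ℂ),
    (∀ j, IsAlgebraic ℚ (β j)) → (∀ j, IsAlgebraic ℚ (Complex.exp (ℓ j))) →
      Transcendental ℚ (Complex.exp (γ * x + ∑ j, β j * ℓ j))

theorem mem_of_not {x : ℂ} (h : ¬ LogFree x) : x ∈ LB := by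
  unfold LogFree at h
  push Not at h
  obtain ⟨γ, hγ, hγ0, n, β, ℓ, hβ, hℓ, h⟩ := h
  rw [Transcendental, not_not] at h
  have h1 : γ * x + ∑ j, β j * ℓ j ∈ LB := LB_log h
  have h2 : ∑ j, β j * ℓ j ∈ LB := LB.sum_mem (fun j _ => LB_mul (hβ j) (LB_log (hℓ j)))
  have h3 := LB_mul hγ.inv (LB.sub_mem h1 h2)
  have e : γ⁻¹ * (γ * x + ∑ j, β j * ℓ j - ∑ j, β j * ℓ j) = x := by
    rw [add_sub_cancel_right, inv_mul_cancel_left₀ hγ0]
  rwa [e] at h3

theorem lp_pos : 0 < lp := Real.log_pos (by linarith [Real.pi_gt_three])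

theorem pp_eq : π ^ π = Real.exp (lp * π) := by
  rw [Real.rpow_def_of_pos Real.pi_pos, lp]

theorem lp_tr (h : IsAlgebraic ℚ (Real.exp (lp * π))) : ¬ IsAlgebraic ℚ lp := by
  intro halg
  have h1 := pi_log (t := lp * π) (mul_ne_zero lp_pos.ne' Real.pi_ne_zero) h (a := 0)
    (b := (lp : ℂ)) (c := -1) isAlgebraic_zero (toC halg) isAlgebraic_one.neg (by
      push_cast
      ring)
  exact one_ne_zero (neg_eq_zero.mp h1.2.2)

/-- the first list -/
noncomputable def four : Fin 4 → ℂ := ![lp, 1 / lp, lp ^ 2 * π, π / lp]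

/-- the second list -/
noncomputable def three : Fin 3 → ℂ := ![lp * π ^ 2, (lp * π) ^ 2, 1 / (lp * π)]

theorem card_of_pairs {n : ℕ} (P : Fin n → Prop) (h : ∀ i j, i < j → P i ∨ P j) :
    n - 1 ≤ {i : Fin n | P i}.ncard := by
  classical
  have h1 : {i : Fin n | ¬ P i}.ncard ≤ 1 := by
    rw [Set.ncard_le_one_iff]
    intro i j hi hj
    by_contra hij
    rcases lt_or_gt_of_ne hij with h' | h'
    · rcases h i j h' with h | h
      · exact hi h
      · exact hj h
    · rcases h j i h' with h | h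
      · exact hj h
      · exact hi h
  have h2 : {i : Fin n | P i}.ncard + {i : Fin n | ¬ P i}.ncard = n := by
    have := Set.ncard_add_ncard_compl {i : Fin n | P i}
    rw [Nat.card_eq_fintype_card, Fintype.card_fin] at this
    exact this
  omega

/-- Either `π ^ π` is transcendental, or: at least three of the four numbers
`ℓ, 1/ℓ, ℓ² π, π/ℓ` and at least two of the three numbers `ℓ π², (ℓ π)², 1/(ℓ π)` are log-free, and
if `ℓ π²` is not log-free then `ℓ, 1/ℓ, π², 1/π` are; here `ℓ = log π`. -/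
theorem result : Transcendental ℚ (π ^ π) ∨
    (3 ≤ {i : Fin 4 | LogFree (four i)}.ncard ∧
      2 ≤ {i : Fin 3 | LogFree (three i)}.ncard ∧
      (¬ LogFree (lp * π ^ 2) →
        LogFree lp ∧ LogFree (1 / lp) ∧ LogFree (π ^ 2) ∧ LogFree (1 / π))) := by
  by_cases hw : Transcendental ℚ (π ^ π)
  · exact Or.inl hw
  right
  rw [Transcendental, not_not, pp_eq] at hw
  have hM : (lp : ℂ) * (π : ℂ) ∈ LB := by
    have := real_mem hw
    rwa [Complex.ofReal_mul] at this
  have ht : ¬ IsAlgebraic ℚ (lp : ℂ) := fun h => lp_tr hw (ofC h)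
  have hL : (π : ℂ) ∈ LB := pi_mem
  have hL0 : (π : ℂ) ≠ 0 := by exact_mod_cast Real.pi_ne_zero
  have eB : (1 / (lp : ℂ)) = (lp : ℂ)⁻¹ := one_div _
  have eC : (lp : ℂ) ^ 2 * π = lp * (lp * π) := by ring
  have eD : (π : ℂ) / lp = (lp : ℂ)⁻¹ * π := by rw [div_eq_mul_inv, mul_comm]
  have eN : 1 / ((lp : ℂ) * π) = ((lp : ℂ) * π)⁻¹ := one_div _
  have eH : 1 / (π : ℂ) = (π : ℂ)⁻¹ := one_div _
  refine ⟨?_, ?_, ?_⟩
  · refine card_of_pairs (fun i => LogFree (four i)) ?_
    intro i j hij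
    by_contra hcon
    rw [not_or] at hcon
    obtain ⟨h1, h2⟩ := hcon
    have h1 := mem_of_not h1
    have h2 := mem_of_not h2
    fin_cases i <;> fin_cases j <;> simp only [four] at h1 h2 hij <;>
      first
        | exact absurd hij (by decide)
        | skip
    · exact pAB ht hL0 hL hM h1 (by rw [← eB]; exact h2)
    · exact pAC ht hL0 hL hM h1 (by rw [← eC]; exact h2)
    · exact pAD ht hL0 hL hM h1 (by rw [← eD]; exact h2)
    · exact pBC ht hL0 hL hM (by rw [← eB]; exact h1) (by rw [← eC]; exact h2)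
    · exact pBD ht hL0 hL hM (by rw [← eB]; exact h1) (by rw [← eD]; exact h2)
    · exact pCD ht hL0 hL hM (by rw [← eC]; exact h1) (by rw [← eD]; exact h2)
  · refine card_of_pairs (fun i => LogFree (three i)) ?_
    intro i j hij
    by_contra hcon
    rw [not_or] at hcon
    obtain ⟨h1, h2⟩ := hcon
    have h1 := mem_of_not h1
    have h2 := mem_of_not h2
    fin_cases i <;> fin_cases j <;> simp only [three] at h1 h2 hij <;>
      first
        | exact absurd hij (by decide)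
        | skip
    · exact pKE ht hL0 hL hM h2 h1
    · exact pNE ht hL0 hL hM (by rw [← eN]; exact h2) h1
    · exact pKN ht hL0 hM h1 (by rw [← eN]; exact h2)
  · intro hE
    have hE := mem_of_not hE
    refine ⟨?_, ?_, ?_, ?_⟩
    · by_contra h
      exact pAE ht hL0 hL hM (mem_of_not h) hE
    · by_contra h
      exact pBE ht hL0 hL hM (by rw [← eB]; exact mem_of_not h) hE
    · by_contra h
      exact pGE ht hL0 hL hM (mem_of_not h) hE
    · by_contra h
      exact pHE ht hL0 hL hM (by rw [← eH]; exact mem_of_not h) hE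

end Pool.Agent.Results.MP_4c2ad3_nt.PiPiOrFiveOfSeven
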