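import Pool.Agent.H137R5.TowPi2

set_option autoImplicit false

/-!
`π ^ π`, `π ^ (π ^ 2)` and the numbers `t ^ π`, `e ^ (1 / (π + c))`.

Uses the strong six exponentials theorem (helper301, helper335), the inhomogeneous Baker theorem
(helper297) and the Lindemann-Weierstrass theorem (helper340).
-/

namespace Pool.Agent.Results.MP_4c2ad3_nt.PiPiOrFreeExponentials

open Pool.Agent.H137R5.Tow

/-- `t` is *free*: its logarithm is not of the form `γ + β₁ l₁ + ... + βₘ lₘ` with `γ`, the `βᵢ`
and the exponentials of the `lᵢ` algebraic (complex) numbers, i.e. `t` is not of the form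
`e ^ γ * α₁ ^ β₁ * ... * αₘ ^ βₘ`. -/
def Free (t : ℝ) : Prop :=
  ∀ (m : ℕ) (γ : ℂ) (β l : Fin m → ℂ), IsAlgebraic ℚ γ → (∀ i, IsAlgebraic ℚ (β i)) →
    (∀ i, IsAlgebraic ℚ (Complex.exp (l i))) → ((Real.log t : ℝ) : ℂ) ≠ γ + ∑ i, β i * l i

theorem alg_of_not {t : ℝ} (h : ¬ Transcendental ℚ t) : IsAlgebraic ℚ t := by
  by_contra h1
  exact h h1

theorem rel_int {x y : ℝ} (h : ∀ m n : ℤ, (m : ℝ) * x = n * y → m = 0 ∧ n = 0) (p q : ℚ)
    (hpq : (p : ℝ) * x + q * y = 0) : p = 0 ∧ q = 0 := by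
  have hp : (p : ℝ) = p.num / p.den := by exact_mod_cast (Rat.num_div_den p).symm
  have hq : (q : ℝ) = q.num / q.den := by exact_mod_cast (Rat.num_div_den q).symm
  have hpd : (p.den : ℝ) ≠ 0 := by exact_mod_cast p.den_nz
  have hqd : (q.den : ℝ) ≠ 0 := by exact_mod_cast q.den_nz
  have h1 := h (p.num * q.den) (-(q.num * p.den)) (by
    rw [hp, hq] at hpq
    push_cast
    field_simp at hpq
    linear_combination hpq)
  have h2 : p.num = 0 := by
    rcases mul_eq_zero.mp h1.1 with h3 | h3
    · exact h3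
    · exact absurd (by exact_mod_cast h3) q.den_nz
  have h4 : q.num = 0 := by
    rcases mul_eq_zero.mp (neg_eq_zero.mp h1.2) with h3 | h3
    · exact h3
    · exact absurd (by exact_mod_cast h3) p.den_nz
  exact ⟨Rat.num_eq_zero.mp h2, Rat.num_eq_zero.mp h4⟩

theorem zpow_exp {x : ℝ} (hx : 0 < x) (m : ℤ) : x ^ m = Real.exp (m * Real.log x) := by
  rw [← Real.rpow_intCast, Real.rpow_def_of_pos hx, mul_comm]

/-- Either `π ^ π` is transcendental, or the following two assertions hold: for every positive real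
algebraic `t` which is multiplicatively independent of `π ^ π`, `t ^ π` or `π ^ (π ^ 2)` is free;
`π ^ (π ^ 2)` is transcendental, or `e ^ (1 / (π + c))` is free for all real algebraic `c`. Free
positive numbers are transcendental. -/
theorem result :
    (Transcendental ℚ (Real.pi ^ Real.pi) ∨
      ((∀ t : ℝ, 0 < t → IsAlgebraic ℚ t →
        (∀ m n : ℤ, (Real.pi ^ Real.pi) ^ m = t ^ n → m = 0 ∧ n = 0) →
          Free (t ^ Real.pi) ∨ Free (Real.pi ^ (Real.pi ^ 2))) ∧
      (Transcendental ℚ (Real.pi ^ (Real.pi ^ 2)) ∨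
        ∀ c : ℝ, IsAlgebraic ℚ c → Free (Real.exp (1 / (Real.pi + c)))))) ∧
    (∀ t : ℝ, 0 < t → Free t → Transcendental ℚ t) := by
  refine ⟨?_, fun t ht hf => free_tr ht hf⟩
  by_cases ha : Transcendental ℚ (Real.pi ^ Real.pi)
  · exact Or.inl ha
  right
  have h1 : IsAlgebraic ℚ (Real.exp (Real.pi * Real.log Real.pi)) := by
    have h := alg_of_not ha
    rw [Real.rpow_def_of_pos Real.pi_pos, mul_comm] at h
    exact h
  refine ⟨?_, ?_⟩
  · intro t ht hta hind
    by_contra hcon
    rw [not_or] at hcon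
    have h3 := bad_of_not_free hcon.1
    unfold Bad at h3
    rw [Real.log_rpow ht] at h3
    have h4 := bad_of_not_free hcon.2
    unfold Bad at h4
    rw [Real.log_rpow Real.pi_pos] at h4
    have h5 : Real.pi ^ 2 * Real.log Real.pi = Real.pi * (Real.pi * Real.log Real.pi) := by ring
    rw [h5] at h4
    refine pipi_base h1 h4 t ht hta (rel_int ?_) h3
    intro m n hmn
    apply hind
    rw [zpow_exp (Real.rpow_pos_of_pos Real.pi_pos _), zpow_exp ht, Real.log_rpow Real.pi_pos, hmn]
  · by_cases hb : Transcendental ℚ (Real.pi ^ (Real.pi ^ 2))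
    · exact Or.inl hb
    right
    have h2 : IsAlgebraic ℚ (Real.exp (Real.pi * (Real.pi * Real.log Real.pi))) := by
      have h := alg_of_not hb
      rw [Real.rpow_def_of_pos Real.pi_pos] at h
      have h3 : Real.log Real.pi * Real.pi ^ 2 = Real.pi * (Real.pi * Real.log Real.pi) := by ring
      rw [h3] at h
      exact h
    intro c hc
    by_contra hf
    exact pipi_inv h1 h2 c hc (mem_of_exp hf)

end Pool.Agent.Results.MP_4c2ad3_nt.PiPiOrFreeExponentials
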