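import Mathlib
import Pool.Agent.H335R2.PiPi

/-- For algebraic `β ≠ 0` and `γ`, and every nonzero logarithm `lam` of an algebraic number, at
least one of `π ^ π`, `π ^ β * e ^ γ`, `e ^ (π lam)` is transcendental. -/
theorem Pool.Agent.Results.MP_4c2ad3_nt.PiPiTriples.result (β γ lam : ℂ) (hβ : IsAlgebraic ℚ β)
    (hβ0 : β ≠ 0) (hγ : IsAlgebraic ℚ γ) (hlam0 : lam ≠ 0)
    (hlam : IsAlgebraic ℚ (Complex.exp lam)) :
    Transcendental ℚ (Real.pi ^ Real.pi) ∨
      Transcendental ℚ (Complex.exp (β * (Real.log Real.pi : ℝ)) * Complex.exp γ) ∨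
      Transcendental ℚ (Complex.exp (Real.pi * lam)) := by
  by_contra hcon
  push Not at hcon
  simp only [Transcendental, not_not] at hcon
  obtain ⟨h1, h2, h3⟩ := hcon
  rw [← Complex.exp_add] at h2
  refine Pool.Agent.H335R2.pipi_or hlam0 hlam ?_ h1 h3
  refine Pool.Agent.H335R2.lt1 (a := -γ * β⁻¹) (b := β⁻¹) (hγ.neg.mul hβ.inv) hβ.inv h2 ?_
  field_simp
  ring
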